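import Pool.Agent.W990.EB.Cor

/-!
# MP_eaae5b_nt: the gap between the lower and the upper limit of the representation function

`rep A n` is the number `r_{A,2}(n)` of ordered pairs `(a, b) ∈ A × A` with `a + b = n`.

* If `r_{A,2}(n) ≥ 1000` for all large `n`, then `r_{A,2}(n) ≥ 1068` for infinitely many `n`.
* In general let `l ≤ K` be even, `l ≥ 2` and `(√K - √l)² < 1369/1260`.  If `r_{A,2}(n) ≥ l - 1`
  for all large `n`, then `r_{A,2}(n) ≥ K + 2` for infinitely many `n`; if `r_{A,2}` is bounded,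
  then these `n` have positive upper density.
-/

set_option autoImplicit false
open Finset Filter

namespace Pool.Agent.Results.MP_eaae5b_nt.RepresentationGap

/-- `r_{A,2}(n)`: the number of ordered pairs of elements of `A` with sum `n` -/
noncomputable def rep (A : Set ℕ) (n : ℕ) : ℕ :=
  {x : ℕ × ℕ | x.1 ∈ A ∧ x.2 ∈ A ∧ x.1 + x.2 = n}.ncard

theorem pos_density (A : Set ℕ) (l K : ℕ) (hl : Even l) (hK : Even K) (h2 : 2 ≤ l) (hlK : l ≤ K)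
    (h : (Real.sqrt K - Real.sqrt l) ^ 2 < 1369 / 1260) (hA : ∃ n₀, ∀ n ≥ n₀, l ≤ rep A n + 1)
    (hR : ∃ R, ∀ n, rep A n ≤ R) :
    ∃ c : ℝ, 0 < c ∧ ∀ n₁ : ℕ, ∃ N ≥ n₁, c * N ≤ ({n : ℕ | n < N ∧ K + 2 ≤ rep A n}.ncard : ℝ) := by
  classical
  obtain ⟨n₀, hn₀⟩ := hA
  obtain ⟨R, hR⟩ := hR
  have hl2 : (2:ℝ) ≤ l := by exact_mod_cast h2
  have hlK' : (l:ℝ) ≤ K := by exact_mod_cast hlK
  have hη := W990.EB.gap_pos (l := (l:ℝ)) (u := (K:ℝ)) (b := 1369 / 1260) (by linarith) hlK'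
    (by norm_num) (by linarith) h
  obtain ⟨η, hηd⟩ : ∃ η : ℝ, η = (l : ℝ) * K - (l + K - 1369 / 1260) ^ 2 / 4 := ⟨_, rfl⟩
  rw [← hηd] at hη
  have hB0 : (0:ℝ) ≤ ((R:ℝ) + K) ^ 2 := by positivity
  refine ⟨η / (2 * (((R:ℝ) + K) ^ 2 + 1)), by positivity, ?_⟩
  by_contra hcon
  push Not at hcon
  obtain ⟨n₁, hn₁⟩ := hcon
  refine W990.EB.unify (A := A) (R := R) (l := l) (K := K) (n0 := n₀)
    (c := ((R:ℝ) + K) ^ 2) (d := η / (2 * (((R:ℝ) + K) ^ 2 + 1)))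
    (Q := fun n => K + 2 ≤ rep A n) hR hl hK h2 hlK hB0 ?_ ?_ ?_ (by positivity) ?_ ?_
  · intro n _ hq
    have : rep A n < K + 2 := not_le.mp hq
    change rep A n ≤ K + 1
    omega
  · intro n hn _
    exact hn₀ n hn
  · intro n _ _ _
    exact W990.EB.prod_bd (Nat.cast_nonneg _) (by exact_mod_cast hR n) (by linarith) hlK'
  · filter_upwards [eventually_ge_atTop n₁] with N hN
    have h3 := (hn₁ N hN).le
    have h4 : {n : ℕ | n < N ∧ K + 2 ≤ rep A n} =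
        (((range N).filter (fun n => K + 2 ≤ rep A n) : Finset ℕ) : Set ℕ) := by
      ext n
      simp
    rw [h4, Set.ncard_coe_finset] at h3
    exact h3
  · rw [← hηd]
    have h5 : ((R:ℝ) + K) ^ 2 * (η / (2 * (((R:ℝ) + K) ^ 2 + 1))) =
        η / 2 * (((R:ℝ) + K) ^ 2 / (((R:ℝ) + K) ^ 2 + 1)) := by
      field_simp
    rw [h5]
    have h6 : ((R:ℝ) + K) ^ 2 / (((R:ℝ) + K) ^ 2 + 1) ≤ 1 := by
      rw [div_le_one (by linarith)]
      linarith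
    have h7 : η / 2 * (((R:ℝ) + K) ^ 2 / (((R:ℝ) + K) ^ 2 + 1)) ≤ η / 2 * 1 :=
      mul_le_mul_of_nonneg_left h6 (by linarith)
    linarith

/-- **Theorem.** Let `l ≤ K` be even, `l ≥ 2` and `(√K - √l)² < 1369/1260`, and suppose
`r_{A,2}(n) ≥ l - 1` for all large `n`. Then `r_{A,2}(n) ≥ K + 2` for infinitely many `n`, and if
`r_{A,2}` is bounded, these `n` have positive upper density. In particular, if
`r_{A,2}(n) ≥ 1000` for all large `n`, then `r_{A,2}(n) ≥ 1068` for infinitely many `n`. -/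
theorem result :
    (∀ (A : Set ℕ) (l K : ℕ), Even l → Even K → 2 ≤ l → l ≤ K →
      (Real.sqrt K - Real.sqrt l) ^ 2 < 1369 / 1260 → (∃ n₀, ∀ n ≥ n₀, l ≤ rep A n + 1) →
      (∀ n₁, ∃ n ≥ n₁, K + 2 ≤ rep A n) ∧
      ((∃ R, ∀ n, rep A n ≤ R) → ∃ c : ℝ, 0 < c ∧
        ∀ n₁ : ℕ, ∃ N ≥ n₁, c * N ≤ ({n : ℕ | n < N ∧ K + 2 ≤ rep A n}.ncard : ℝ))) ∧
    (∀ A : Set ℕ, (∃ n₀, ∀ n ≥ n₀, 1000 ≤ rep A n) → ∀ n₁, ∃ n ≥ n₁, 1068 ≤ rep A n) := by
  have key : ∀ (A : Set ℕ) (l K : ℕ), Even l → Even K → 2 ≤ l → l ≤ K →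
      (Real.sqrt K - Real.sqrt l) ^ 2 < 1369 / 1260 → (∃ n₀, ∀ n ≥ n₀, l ≤ rep A n + 1) →
      (∀ n₁, ∃ n ≥ n₁, K + 2 ≤ rep A n) := by
    intro A l K hl hK h2 hlK h hA
    by_contra hcon
    push Not at hcon
    obtain ⟨n₁, hn₁⟩ := hcon
    obtain ⟨c, hc, hd⟩ := pos_density A l K hl hK h2 hlK h hA
      ⟨K + 2 + ∑ m ∈ range n₁, rep A m, fun n => by
        by_cases hn : n₁ ≤ n
        · have := hn₁ n hn
          omega
        · have : rep A n ≤ ∑ m ∈ range n₁, rep A m :=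
            single_le_sum (f := fun m => rep A m) (fun _ _ => Nat.zero_le _)
              (mem_range.mpr (by omega))
          omega⟩
    obtain ⟨N2, hN2⟩ := exists_nat_gt (n₁ / c)
    obtain ⟨N, hN, hN'⟩ := hd N2
    have h3 : {n : ℕ | n < N ∧ K + 2 ≤ rep A n}.ncard ≤ n₁ := by
      have : {n : ℕ | n < N ∧ K + 2 ≤ rep A n} ⊆ ((range n₁ : Finset ℕ) : Set ℕ) := by
        rintro n ⟨_, h4⟩
        rw [mem_coe, mem_range]
        by_contra h5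
        have := hn₁ n (by omega)
        omega
      have h6 := Set.ncard_le_ncard this (finite_toSet _)
      rw [Set.ncard_coe_finset, card_range] at h6
      exact h6
    have h4 : (n₁ : ℝ) < c * N := by
      rw [div_lt_iff₀ hc] at hN2
      have : (N2 : ℝ) ≤ N := by exact_mod_cast hN
      nlinarith
    have h5 : (({n : ℕ | n < N ∧ K + 2 ≤ rep A n}.ncard : ℕ) : ℝ) ≤ n₁ := by exact_mod_cast h3
    linarith
  refine ⟨fun A l K hl hK h2 hlK h hA => ⟨key A l K hl hK h2 hlK h hA,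
    pos_density A l K hl hK h2 hlK h hA⟩, ?_⟩
  rintro A ⟨n₀, hn₀⟩
  refine key A 1000 1066 (by decide) (by decide) (by norm_num) (by norm_num) ?_
    ⟨n₀, fun n hn => (hn₀ n hn).trans (Nat.le_succ _)⟩
  have h1 : Real.sqrt ((1066 : ℕ) : ℝ) ≤ 326498 / 10000 := by
    rw [Real.sqrt_le_left (by norm_num)]
    norm_num
  have h2 : (316227 / 10000 : ℝ) ≤ Real.sqrt ((1000 : ℕ) : ℝ) := by
    apply Real.le_sqrt_of_sq_le
    norm_num
  have h3 : Real.sqrt ((1000 : ℕ) : ℝ) ≤ Real.sqrt ((1066 : ℕ) : ℝ) :=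
    Real.sqrt_le_sqrt (by norm_num)
  have h4 : 0 ≤ Real.sqrt ((1066 : ℕ) : ℝ) - Real.sqrt ((1000 : ℕ) : ℝ) := by linarith
  have h5 : Real.sqrt ((1066 : ℕ) : ℝ) - Real.sqrt ((1000 : ℕ) : ℝ) ≤ 10271 / 10000 := by linarith
  calc (Real.sqrt ((1066 : ℕ) : ℝ) - Real.sqrt ((1000 : ℕ) : ℝ)) ^ 2 ≤ (10271 / 10000) ^ 2 :=
        pow_le_pow_left₀ h4 h5 2
    _ < 1369 / 1260 := by norm_num

end Pool.Agent.Results.MP_eaae5b_nt.RepresentationGap
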